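import Mathlib
import Pool.Agent.Results.MP_68925f_co.NimSquares

/-!
The natural numbers with nim sum and nim product form a domain of characteristic two.
-/

set_option autoImplicit false

namespace Pool.Agent.Y765.Nim

open Pool.Agent.Results.MP_68925f_co.NimSquares

/-- The natural numbers with nim sum and nim product. -/
def NF : Type := ℕ

/-- A natural number read as a nimber. -/
def of (n : ℕ) : NF := n

/-- The natural number underlying a nimber. -/
def val (x : NF) : ℕ := x

@[simp] lemma val_of (n : ℕ) : val (of n) = n := rfl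

@[simp] lemma of_val (x : NF) : of (val x) = x := rfl

lemma val_inj {x y : NF} (h : val x = val y) : x = y := h

lemma of_inj {x y : ℕ} (h : of x = of y) : x = y := h

instance : Zero NF := ⟨of 0⟩
instance : One NF := ⟨of 1⟩
instance : Add NF := ⟨fun x y => of (val x ^^^ val y)⟩
instance : Neg NF := ⟨fun x => x⟩
instance : Mul NF := ⟨fun x y => of (nimMul (val x) (val y))⟩

lemma val_add (x y : NF) : val (x + y) = val x ^^^ val y := rfl
lemma val_mul (x y : NF) : val (x * y) = nimMul (val x) (val y) := rfl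
@[simp] lemma val_zero : val 0 = 0 := rfl
@[simp] lemma val_one : val 1 = 1 := rfl
lemma of_xor (x y : ℕ) : of (x ^^^ y) = of x + of y := rfl
lemma of_mul (x y : ℕ) : of (nimMul x y) = of x * of y := rfl
lemma of_zero : of 0 = 0 := rfl
lemma of_one : of 1 = 1 := rfl

lemma nimMul_one_left (x : ℕ) : nimMul 1 x = x := by
  have hx : x < 2 ^ (2 ^ (x + 1)) := lt_of_lt_of_le (lt_pow_pow x) (pow_mono (by omega))
  have h1 : 1 < 2 ^ (2 ^ (x + 1)) := Nat.one_lt_pow (by positivity) (by norm_num)
  rw [nimMul_eq h1 hx, lev_one _ _ hx]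

instance : CommRing NF where
  add_assoc x y z := val_inj (by simp only [val_add, Nat.xor_assoc])
  zero_add x := val_inj (by simp only [val_add, val_zero, Nat.zero_xor])
  add_zero x := val_inj (by simp only [val_add, val_zero, Nat.xor_zero])
  add_comm x y := val_inj (by simp only [val_add, Nat.xor_comm])
  nsmul := nsmulRec
  zsmul := zsmulRec
  neg_add_cancel x := val_inj (by
    change val x ^^^ val x = 0
    exact Nat.xor_self _)
  mul_assoc x y z := val_inj (nimMul_isNimProduct.assoc _ _ _)
  mul_comm x y := val_inj (nimMul_isNimProduct.comm _ _)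
  one_mul x := val_inj (nimMul_one_left _)
  mul_one x := val_inj (by
    change nimMul (val x) 1 = val x
    rw [nimMul_isNimProduct.comm, nimMul_one_left])
  left_distrib x y z := val_inj (nimMul_isNimProduct.distrib _ _ _)
  right_distrib x y z := val_inj (distrib' nimMul_isNimProduct _ _ _)
  zero_mul x := val_inj (mul_zero_left nimMul_isNimProduct _)
  mul_zero x := val_inj (mul_zero_right nimMul_isNimProduct _)

lemma add_self (x : NF) : x + x = 0 := val_inj (Nat.xor_self _)

lemma two_eq_zero : (2 : NF) = 0 := by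
  have h := add_self (1 : NF)
  rw [one_add_one_eq_two] at h
  exact h

instance : Nontrivial NF := ⟨⟨0, 1, fun h => by
  have := congrArg val h
  simp at this⟩⟩

instance : CharP NF 2 :=
  CharTwo.of_one_ne_zero_of_two_eq_zero one_ne_zero two_eq_zero

/-- The `b`-th Fermat power `2^(2^b)`. -/
def Fe (b : ℕ) : NF := of (2 ^ (2 ^ b))

/-- Half of the `b`-th Fermat power. -/
def He (b : ℕ) : NF := of (2 ^ (2 ^ b) / 2)

lemma Fe_sq (b : ℕ) : Fe b * Fe b = Fe b + He b :=
  val_inj (fermat_sq' nimMul_isNimProduct b)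

/-- Membership in the finite field with `2^(2^v)` elements. -/
def InK (v : ℕ) (x : NF) : Prop := val x < 2 ^ (2 ^ v)

lemma InK.add {v : ℕ} {x y : NF} (hx : InK v x) (hy : InK v y) : InK v (x + y) :=
  Nat.xor_lt_two_pow hx hy

lemma InK.mul {v : ℕ} {x y : NF} (hx : InK v x) (hy : InK v y) : InK v (x * y) :=
  closure nimMul_isNimProduct v _ _ hx hy

lemma InK.zero (v : ℕ) : InK v 0 := by
  unfold InK
  rw [val_zero]
  positivity

lemma InK.one (v : ℕ) : InK v 1 := by
  unfold InK
  rw [val_one]
  exact Nat.one_lt_pow (by positivity) (by norm_num)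

lemma InK.pow {v : ℕ} {x : NF} (hx : InK v x) (k : ℕ) : InK v (x ^ k) := by
  induction k with
  | zero => rw [pow_zero]; exact InK.one v
  | succ k ih => rw [pow_succ]; exact ih.mul hx

lemma InK.mono {v w : ℕ} (h : v ≤ w) {x : NF} (hx : InK v x) : InK w x :=
  lt_of_lt_of_le hx (pow_mono h)

lemma exists_InK (x : NF) : ∃ v, InK v x := ⟨val x, lt_pow_pow _⟩

lemma Fe_InK (b : ℕ) : InK (b + 1) (Fe b) := by
  unfold InK Fe
  rw [val_of]
  exact Nat.pow_lt_pow_right (by norm_num) (Nat.pow_lt_pow_right (by norm_num) (by omega))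

lemma He_InK (b : ℕ) : InK b (He b) := by
  unfold InK He
  rw [val_of]
  exact Nat.div_lt_self (by positivity) (by norm_num)

lemma Fe_mul {b : ℕ} {x : NF} (hx : InK b x) : Fe b * x = of (2 ^ (2 ^ b) * val x) :=
  val_inj (nimMul_isNimProduct.fermat_mul b _ hx)

lemma He_succ (b : ℕ) : He (b + 1) = Fe b * He b := by
  rw [Fe_mul (He_InK b)]
  have := half_succ b
  rw [Nat.xor_zero] at this
  exact val_inj this

/-- Digit decomposition. -/
lemma decomp (b : ℕ) {x : NF} (hx : InK (b + 1) x) :
    ∃ u w : NF, InK b u ∧ InK b w ∧ x = Fe b * u + w := by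
  unfold InK at hx
  rw [pow_succ_pow] at hx
  have hd : InK b (of (val x / 2 ^ (2 ^ b))) := Nat.div_lt_of_lt_mul hx
  refine ⟨of (val x / 2 ^ (2 ^ b)), of (val x % 2 ^ (2 ^ b)), hd,
    Nat.mod_lt _ (by positivity), ?_⟩
  rw [Fe_mul hd]
  exact val_inj (split (2 ^ b) (val x))

lemma comb_InK {b : ℕ} {u w : NF} (hu : InK b u) (hw : InK b w) : InK (b + 1) (Fe b * u + w) :=
  ((Fe_InK b).mul (hu.mono (by omega))).add (hw.mono (by omega))

lemma comb_eq_zero {b : ℕ} {u w : NF} (hu : InK b u) (hw : InK b w) (h : Fe b * u + w = 0) :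
    u = 0 ∧ w = 0 := by
  rw [Fe_mul hu] at h
  have := join_eq_zero (e := 2 ^ b) (x1 := val u) (x0 := val w) hw h
  exact this

/-! ### The ring is a domain -/

lemma top_sq (a : ℕ) : ∀ x < 2 ^ (2 ^ a), nimMul x x / 2 ^ (2 ^ a - 1) = x / 2 ^ (2 ^ a - 1) := by
  induction a with
  | zero =>
    intro x hx
    norm_num at hx ⊢
    interval_cases x
    · exact mul_zero_left nimMul_isNimProduct 0
    · exact mul_one_one nimMul_isNimProduct
  | succ a ih =>
    intro x hx
    rw [pow_succ_pow] at hx
    have h1 : x / 2 ^ (2 ^ a) < 2 ^ (2 ^ a) := Nat.div_lt_of_lt_mul hx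
    have h0 : x % 2 ^ (2 ^ a) < 2 ^ (2 ^ a) := Nat.mod_lt _ (by positivity)
    have h3 : 2 ^ (2 ^ a) / 2 < 2 ^ (2 ^ a) := Nat.div_lt_self (by positivity) (by norm_num)
    have hcl := closure nimMul_isNimProduct a
    have hlt := Nat.xor_lt_two_pow (hcl _ _ h0 h0) (hcl _ _ h3 (hcl _ _ h1 h1))
    have e : 2 ^ (2 ^ (a + 1) - 1) = 2 ^ (2 ^ a) * 2 ^ (2 ^ a - 1) := by
      rw [← pow_add]
      congr 1
      have : 0 < 2 ^ a := by positivity
      rw [pow_succ]
      omega
    have e1 : nimMul x x / 2 ^ (2 ^ a) = nimMul (x / 2 ^ (2 ^ a)) (x / 2 ^ (2 ^ a)) := by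
      conv_lhs => rw [split (2 ^ a) x]
      rw [sq_split nimMul_isNimProduct a h1 h0, join _ _ _ hlt, Nat.mul_add_div (by positivity),
        Nat.div_eq_of_lt hlt, add_zero]
    rw [e, ← Nat.div_div_eq_div_mul, ← Nat.div_div_eq_div_mul, e1, ih _ h1]

lemma no_artin (a : ℕ) (t : NF) (ht : InK a t) : t * t + t ≠ He a := by
  intro h
  have h1 : (nimMul (val t) (val t) ^^^ val t) = 2 ^ (2 ^ a) / 2 := congrArg val h
  have h2 := congrArg (fun z => z / 2 ^ (2 ^ a - 1)) h1
  simp only [Nat.xor_div_two_pow, top_sq a _ ht, Nat.xor_self] at h2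
  have h4 : 2 ^ (2 ^ a) = 2 * 2 ^ (2 ^ a - 1) := by
    rw [← pow_succ']
    congr 1
    have : 0 < 2 ^ a := by positivity
    omega
  rw [h4, Nat.mul_div_cancel_left _ (by norm_num), Nat.div_self (by positivity)] at h2
  omega

lemma domain_lev (a : ℕ) : ∀ x y : NF, InK a x → InK a y → x * y = 0 → x = 0 ∨ y = 0 := by
  induction a with
  | zero =>
    intro x y hx hy h
    unfold InK at hx hy
    norm_num at hx hy
    have hx' : x = 0 ∨ x = 1 := by
      have : val x = 0 ∨ val x = 1 := by omega
      rcases this with h | h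
      · exact Or.inl (val_inj h)
      · exact Or.inr (val_inj h)
    rcases hx' with rfl | rfl
    · exact Or.inl rfl
    · rw [one_mul] at h
      exact Or.inr h
  | succ a ih =>
    intro x y hx hy h
    obtain ⟨x1, x0, hx1, hx0, rfl⟩ := decomp a hx
    obtain ⟨y1, y0, hy1, hy0, rfl⟩ := decomp a hy
    have hH := He_InK a
    have hN : InK a (x0 * x0 + x0 * x1 + He a * (x1 * x1)) :=
      ((hx0.mul hx0).add (hx0.mul hx1)).add (hH.mul (hx1.mul hx1))
    have e1 : (x0 * x0 + x0 * x1 + He a * (x1 * x1)) * (Fe a * y1 + y0) = 0 := by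
      have e2 : (x0 * x0 + x0 * x1 + He a * (x1 * x1)) =
          (Fe a * x1 + x0 + x1) * (Fe a * x1 + x0) := by
        have := Fe_sq a
        have h2 := two_eq_zero
        linear_combination (- x1 * x1) * this - (Fe a * x1 * x1 + Fe a * x1 * x0) * h2
      rw [e2, mul_assoc, h, mul_zero]
    have e3 : Fe a * ((x0 * x0 + x0 * x1 + He a * (x1 * x1)) * y1) +
        (x0 * x0 + x0 * x1 + He a * (x1 * x1)) * y0 = 0 := by
      rw [← e1]; ring
    obtain ⟨f1, f0⟩ := comb_eq_zero (hN.mul hy1) (hN.mul hy0) e3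
    rcases ih _ _ hN hy1 f1 with hz | hz1
    · left
      have hx1z : x1 = 0 := by
        by_contra hne
        -- multiplication by `x1` is onto
        let f : Fin (2 ^ (2 ^ a)) → Fin (2 ^ (2 ^ a)) :=
          fun n => ⟨val (of n * x1), InK.mul (v := a) n.2 hx1⟩
        have hf : Function.Injective f := by
          intro m n hmn
          have h1 : of (m : ℕ) * x1 = of (n : ℕ) * x1 := by
            have := congrArg Fin.val hmn
            exact this
          have h2 : (of (m : ℕ) + of (n : ℕ)) * x1 = 0 := by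
            rw [add_mul, h1, add_self]
          have h3 : InK a (of (m : ℕ) + of (n : ℕ)) := InK.add (v := a) m.2 n.2
          rcases ih _ _ h3 hx1 h2 with h4 | h4
          · have h5 : ((m : ℕ) ^^^ (n : ℕ)) = 0 := h4
            exact Fin.ext (Nat.xor_eq_zero_iff.1 h5)
          · exact absurd h4 hne
        obtain ⟨t, ht⟩ := (Finite.injective_iff_surjective.1 hf) ⟨val x0, hx0⟩
        have ht' : of (t : ℕ) * x1 = x0 := congrArg Fin.val ht
        have htK : InK a (of (t : ℕ)) := t.2
        have h6 : (x1 * x1) * (of (t : ℕ) * of (t : ℕ) + of (t : ℕ) + He a) = 0 := by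
          rw [← ht'] at hz
          linear_combination hz
        rcases ih _ _ (hx1.mul hx1) (((htK.mul htK).add htK).add hH) h6 with h7 | h7
        · rcases ih _ _ hx1 hx1 h7 with h8 | h8 <;> exact hne h8
        · apply no_artin a _ htK
          have h2 := two_eq_zero
          linear_combination h7 - He a * h2
      rw [hx1z] at hz
      have hx0z : x0 = 0 := by
        have : x0 * x0 = 0 := by linear_combination hz
        rcases ih _ _ hx0 hx0 this with h8 | h8 <;> exact h8
      rw [hx1z, hx0z]; ring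
    · rcases ih _ _ hN hy0 f0 with hz | hz0
      · left
        have hx1z : x1 = 0 := by
          by_contra hne
          let f : Fin (2 ^ (2 ^ a)) → Fin (2 ^ (2 ^ a)) :=
            fun n => ⟨val (of n * x1), InK.mul (v := a) n.2 hx1⟩
          have hf : Function.Injective f := by
            intro m n hmn
            have h1 : of (m : ℕ) * x1 = of (n : ℕ) * x1 := by
              have := congrArg Fin.val hmn
              exact this
            have h2 : (of (m : ℕ) + of (n : ℕ)) * x1 = 0 := by
              rw [add_mul, h1, add_self]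
            have h3 : InK a (of (m : ℕ) + of (n : ℕ)) := InK.add (v := a) m.2 n.2
            rcases ih _ _ h3 hx1 h2 with h4 | h4
            · have h5 : ((m : ℕ) ^^^ (n : ℕ)) = 0 := h4
              exact Fin.ext (Nat.xor_eq_zero_iff.1 h5)
            · exact absurd h4 hne
          obtain ⟨t, ht⟩ := (Finite.injective_iff_surjective.1 hf) ⟨val x0, hx0⟩
          have ht' : of (t : ℕ) * x1 = x0 := congrArg Fin.val ht
          have htK : InK a (of (t : ℕ)) := t.2
          have h6 : (x1 * x1) * (of (t : ℕ) * of (t : ℕ) + of (t : ℕ) + He a) = 0 := by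
            rw [← ht'] at hz
            linear_combination hz
          rcases ih _ _ (hx1.mul hx1) (((htK.mul htK).add htK).add hH) h6 with h7 | h7
          · rcases ih _ _ hx1 hx1 h7 with h8 | h8 <;> exact hne h8
          · apply no_artin a _ htK
            have h2 := two_eq_zero
            linear_combination h7 - He a * h2
        rw [hx1z] at hz
        have hx0z : x0 = 0 := by
          have : x0 * x0 = 0 := by linear_combination hz
          rcases ih _ _ hx0 hx0 this with h8 | h8 <;> exact h8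
        rw [hx1z, hx0z]; ring
      · right
        rw [hz1, hz0]; ring

instance : NoZeroDivisors NF where
  eq_zero_or_eq_zero_of_mul_eq_zero := by
    intro x y h
    obtain ⟨v, hv⟩ := exists_InK x
    obtain ⟨w, hw⟩ := exists_InK y
    exact domain_lev (max v w) x y (hv.mono (le_max_left _ _)) (hw.mono (le_max_right _ _)) h

instance : IsDomain NF := NoZeroDivisors.to_isDomain NF

/-! ### Low digits -/

/-- The lowest digit in base `2^(2^v)`. -/
def low (v : ℕ) (x : NF) : NF := of (val x % 2 ^ (2 ^ v))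

lemma low_InK (v : ℕ) (x : NF) : InK v (low v x) := Nat.mod_lt _ (by positivity)

lemma low_of_InK {v : ℕ} {x : NF} (hx : InK v x) : low v x = x := val_inj (Nat.mod_eq_of_lt hx)

lemma low_add (v : ℕ) (x y : NF) : low v (x + y) = low v x + low v y :=
  val_inj (Nat.xor_mod_two_pow)

lemma low_low {v w : ℕ} (h : v ≤ w) (x : NF) : low v (low w x) = low v x :=
  val_inj (Nat.mod_mod_of_dvd _ (Nat.pow_dvd_pow 2 (Nat.pow_le_pow_right (by norm_num) h)))

lemma low_Fe_mul {v a : ℕ} (h : v ≤ a) {x : NF} (hx : InK a x) : low v (Fe a * x) = 0 := by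
  rw [Fe_mul hx]
  apply val_inj
  change (2 ^ (2 ^ a) * val x) % 2 ^ (2 ^ v) = 0
  obtain ⟨k, hk⟩ : 2 ^ (2 ^ v) ∣ 2 ^ (2 ^ a) :=
    Nat.pow_dvd_pow 2 (Nat.pow_le_pow_right (by norm_num) h)
  rw [hk, mul_assoc]
  exact Nat.mul_mod_right _ _

lemma low_mul {v : ℕ} {c : NF} (hc : InK v c) (x : NF) : low v (c * x) = c * low v x := by
  have key : ∀ a, v ≤ a → ∀ x : NF, InK a x → low v (c * x) = c * low v x := by
    intro a ha
    induction a, ha using Nat.le_induction with
    | base =>
      intro x hx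
      rw [low_of_InK hx, low_of_InK (hc.mul hx)]
    | succ a ha ih =>
      intro x hx
      obtain ⟨x1, x0, hx1, hx0, rfl⟩ := decomp a hx
      have hca := hc.mono ha
      have e : c * (Fe a * x1 + x0) = Fe a * (c * x1) + c * x0 := by ring
      rw [e, low_add, low_add, low_Fe_mul ha (hca.mul hx1), low_Fe_mul ha hx1, zero_add, zero_add,
        ih _ hx0]
  obtain ⟨w, hw⟩ := exists_InK x
  exact key (max v w) (le_max_left _ _) x (hw.mono (le_max_right _ _))

/-- The product with a power of two with exponent divisible by `2^v`. -/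
lemma pow_mul_eq (v y : ℕ) (hy : y < 2 ^ (2 ^ v)) :
    ∀ i, 2 ^ v ∣ i → nimMul (2 ^ i) y = 2 ^ i * y := by
  intro i
  induction i using Nat.strong_induction_on with
  | _ i ih =>
    intro hi
    rcases Nat.eq_zero_or_pos i with h0 | hpos
    · subst h0
      rw [pow_zero, nimMul_one_left, one_mul]
    · set a := Nat.log 2 i with ha
      have h1 : 2 ^ a ≤ i := Nat.pow_log_le_self 2 (by omega)
      have h2 : i < 2 ^ (a + 1) := Nat.lt_pow_succ_log_self (by norm_num) i
      have h3 : 2 ^ v ≤ i := Nat.le_of_dvd hpos hi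
      have h4 : v ≤ a := by
        rw [ha]
        exact (Nat.le_log_iff_pow_le (by norm_num) (by omega)).2 h3
      have h5 : 2 ^ v ∣ 2 ^ a := Nat.pow_dvd_pow 2 h4
      have h6 : 2 ^ v ∣ i - 2 ^ a := Nat.dvd_sub hi h5
      have hp : 0 < 2 ^ a := by positivity
      have h7 : (i - 2 ^ a) + 2 ^ v ≤ 2 ^ a := by
        obtain ⟨k, hk⟩ := h6
        obtain ⟨l, hl⟩ := h5
        have h8 : i - 2 ^ a < 2 ^ a := by rw [pow_succ] at h2; omega
        rw [hk, hl] at h8
        have h9 : k < l := Nat.lt_of_mul_lt_mul_left h8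
        rw [hk]
        calc 2 ^ v * k + 2 ^ v = 2 ^ v * (k + 1) := by ring
          _ ≤ 2 ^ v * l := Nat.mul_le_mul_left _ h9
          _ = 2 ^ a := hl.symm
      have e1 : 2 ^ i = 2 ^ (2 ^ a) * 2 ^ (i - 2 ^ a) := by
        rw [← pow_add]; congr 1; omega
      have l1 : 2 ^ (i - 2 ^ a) < 2 ^ (2 ^ a) :=
        Nat.pow_lt_pow_right (by norm_num) (by
          have : 0 < 2 ^ v := by positivity
          omega)
      have l2 : 2 ^ (i - 2 ^ a) * y < 2 ^ (2 ^ a) := by
        calc 2 ^ (i - 2 ^ a) * y < 2 ^ (i - 2 ^ a) * 2 ^ (2 ^ v) :=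
              Nat.mul_lt_mul_of_pos_left hy (by positivity)
          _ = 2 ^ ((i - 2 ^ a) + 2 ^ v) := by rw [pow_add]
          _ ≤ 2 ^ (2 ^ a) := Nat.pow_le_pow_right (by norm_num) h7
      rw [e1, ← nimMul_isNimProduct.fermat_mul a _ l1, nimMul_isNimProduct.assoc,
        ih (i - 2 ^ a) (by omega) h6, nimMul_isNimProduct.fermat_mul a _ l2,
        nimMul_isNimProduct.fermat_mul a _ l1]
      ring

lemma of_pow_mul {v : ℕ} {y : NF} (hy : InK v y) {i : ℕ} (hi : 2 ^ v ∣ i) :
    of (2 ^ i) * y = of (2 ^ i * val y) :=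
  val_inj (pow_mul_eq v (val y) hy i hi)

end Pool.Agent.Y765.Nim
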