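import Mathlib
import Pool.Agent.Y765.Nim.Ring

/-!
The last bits of the nim powers `(2^i)^(2^j)` do not form an eventually periodic sequence.
-/

set_option autoImplicit false

namespace Pool.Agent.Y765.Nim

open Polynomial Finset Pool.Agent.Results.MP_68925f_co.NimSquares

noncomputable instance : Algebra (ZMod 2) NF := ZMod.algebra NF 2

/-- Polynomials over the field with two elements. -/
abbrev P2 := Polynomial (ZMod 2)

/-- The coefficients of the powers of a root of `y^2 = y + X`. -/
noncomputable def AB : ℕ → P2 × P2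
  | 0 => (0, 1)
  | d + 1 => ((AB d).1 + (AB d).2, X * (AB d).1)

lemma AB_spec (b d : ℕ) :
    Fe b ^ d = aeval (He b) (AB d).1 * Fe b + aeval (He b) (AB d).2 := by
  induction d with
  | zero => simp [AB]
  | succ d ih =>
    rw [pow_succ, ih]
    simp only [AB, map_add, map_mul, aeval_X]
    linear_combination (aeval (He b) (AB d).1) * Fe_sq b

lemma AB_deg (d : ℕ) : (AB d).1.natDegree ≤ (d - 1) / 2 ∧ (AB d).2.natDegree ≤ d / 2 := by
  induction d with
  | zero => simp [AB]
  | succ d ih =>
    obtain ⟨h1, h2⟩ := ih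
    constructor
    · simp only [AB]
      refine (natDegree_add_le _ _).trans ?_
      omega
    · simp only [AB]
      rcases Nat.eq_zero_or_pos d with rfl | hd
      · simp [AB]
      · refine natDegree_mul_le.trans ?_
        rw [natDegree_X]
        omega

lemma AB_coeff (e : ℕ) : (AB (2 * e)).2.coeff e = 1 ∧ (AB (2 * e + 1)).1.coeff e = 1 := by
  induction e with
  | zero => simp [AB]
  | succ e ih =>
    obtain ⟨h1, h2⟩ := ih
    have h3 : (AB (2 * (e + 1))).2.coeff (e + 1) = 1 := by
      rw [show 2 * (e + 1) = (2 * e + 1) + 1 by ring]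
      change (X * (AB (2 * e + 1)).1).coeff (e + 1) = 1
      rw [coeff_X_mul, h2]
    refine ⟨h3, ?_⟩
    change ((AB (2 * (e + 1))).1 + (AB (2 * (e + 1))).2).coeff (e + 1) = 1
    rw [coeff_add, h3, coeff_eq_zero_of_natDegree_lt, zero_add]
    have := (AB_deg (2 * (e + 1))).1
    omega

/-- The part of `Q(F X)` with `F`. -/
noncomputable def al (Q : P2) : P2 :=
  ∑ d ∈ range (Q.natDegree + 1), C (Q.coeff d) * (X ^ d * (AB d).1)

/-- The part of `Q(F X)` without `F`. -/
noncomputable def be (Q : P2) : P2 :=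
  ∑ d ∈ range (Q.natDegree + 1), C (Q.coeff d) * (X ^ d * (AB d).2)

lemma split_spec (b : ℕ) (Q : P2) :
    aeval (Fe b * He b) Q = aeval (He b) (al Q) * Fe b + aeval (He b) (be Q) := by
  rw [aeval_eq_sum_range, al, be, map_sum, map_sum, Finset.sum_mul, ← Finset.sum_add_distrib]
  apply Finset.sum_congr rfl
  intro d _
  rw [mul_pow, AB_spec]
  simp only [map_mul, map_pow, aeval_X, aeval_C, Algebra.smul_def]
  ring

lemma al_deg_ge {Q : P2} {e : ℕ} (hQ : Q.natDegree = 2 * e + 1) :
    Q.natDegree + e ≤ (al Q).natDegree := by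
  apply le_natDegree_of_ne_zero
  unfold al
  rw [finsetSum_coeff, Finset.sum_eq_single Q.natDegree]
  · rw [coeff_C_mul, coeff_X_pow_mul', if_pos (by omega), Nat.add_sub_cancel_left]
    have h1 : Q.coeff Q.natDegree ≠ 0 := by
      rw [coeff_natDegree, leadingCoeff_ne_zero]
      rintro rfl
      simp at hQ
    rw [show (AB Q.natDegree).1.coeff e = 1 by rw [hQ]; exact (AB_coeff e).2, mul_one]
    exact h1
  · intro d hd hne
    rw [Finset.mem_range] at hd
    rw [coeff_C_mul, coeff_X_pow_mul']
    split_ifs with h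
    · rw [coeff_eq_zero_of_natDegree_lt (p := (AB d).1) (by
        have := (AB_deg d).1
        omega), mul_zero]
    · rw [mul_zero]
  · intro h
    exact absurd (Finset.mem_range.2 (by omega)) h

lemma be_deg_ge {Q : P2} {e : ℕ} (he : 0 < e) (hQ : Q.natDegree = 2 * e) :
    Q.natDegree + e ≤ (be Q).natDegree := by
  apply le_natDegree_of_ne_zero
  unfold be
  rw [finsetSum_coeff, Finset.sum_eq_single Q.natDegree]
  · rw [coeff_C_mul, coeff_X_pow_mul', if_pos (by omega), Nat.add_sub_cancel_left]
    have h1 : Q.coeff Q.natDegree ≠ 0 := by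
      rw [coeff_natDegree, leadingCoeff_ne_zero]
      rintro rfl
      simp at hQ
      omega
    rw [show (AB Q.natDegree).2.coeff e = 1 by rw [hQ]; exact (AB_coeff e).1, mul_one]
    exact h1
  · intro d hd hne
    rw [Finset.mem_range] at hd
    rw [coeff_C_mul, coeff_X_pow_mul']
    split_ifs with h
    · rw [coeff_eq_zero_of_natDegree_lt (p := (AB d).2) (by
        have := (AB_deg d).2
        omega), mul_zero]
    · rw [mul_zero]
  · intro h
    exact absurd (Finset.mem_range.2 (by omega)) h

lemma al_deg_le (Q : P2) : (al Q).natDegree ≤ Q.natDegree + (Q.natDegree - 1) / 2 := by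
  unfold al
  apply natDegree_sum_le_of_forall_le
  intro d hd
  rw [Finset.mem_range] at hd
  refine (natDegree_C_mul_le _ _).trans (natDegree_mul_le.trans ?_)
  rw [natDegree_X_pow]
  have := (AB_deg d).1
  omega

/-- The polynomial `X + X^2 + X^4 + ... + X^(2^(j-1))`. -/
noncomputable def cj (j : ℕ) : P2 := ∑ i ∈ range j, X ^ (2 ^ i)

lemma T_Fe (b j : ℕ) : Fe b ^ (2 ^ j) = Fe b + aeval (He b) (cj j) := by
  induction j with
  | zero => simp [cj]
  | succ j ih =>
    have e : cj (j + 1) = cj j + X ^ (2 ^ j) := Finset.sum_range_succ _ _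
    rw [e, pow_succ' 2 j, pow_mul, pow_two, Fe_sq, add_pow_char_pow, ih, map_add, map_pow, aeval_X,
      add_assoc]

lemma cj_deg (j : ℕ) : (cj (j + 1)).natDegree = 2 ^ j := by
  have hlt : ∀ j, (cj j).natDegree < 2 ^ j := by
    intro j
    induction j with
    | zero => simp [cj]
    | succ j ih =>
      have e : cj (j + 1) = cj j + X ^ (2 ^ j) := Finset.sum_range_succ _ _
      rw [e]
      refine lt_of_le_of_lt (natDegree_add_le _ _) ?_
      rw [natDegree_X_pow, pow_succ]
      omega
  have e : cj (j + 1) = cj j + X ^ (2 ^ j) := Finset.sum_range_succ _ _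
  rw [e, natDegree_add_eq_right_of_natDegree_lt, natDegree_X_pow]
  rw [natDegree_X_pow]
  exact hlt j

/-- The polynomials giving the low digits. -/
noncomputable def Qf (c : P2) : ℕ → P2
  | 0 => 1
  | n + 1 => if (n + 1) % 2 = 0 then be (Qf c ((n + 1) / 2)) else
      X * al (Qf c ((n + 1) / 2)) + c * be (Qf c ((n + 1) / 2))

lemma Qf_zero (c : P2) : Qf c 0 = 1 := by rw [Qf]

lemma Qf_even (c : P2) {m : ℕ} (hm : 0 < m) : Qf c (2 * m) = be (Qf c m) := by
  obtain ⟨n, hn⟩ : ∃ n, 2 * m = n + 1 := ⟨2 * m - 1, by omega⟩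
  rw [hn, Qf, if_pos (by omega), show (n + 1) / 2 = m by omega]

lemma Qf_odd (c : P2) (m : ℕ) : Qf c (2 * m + 1) = X * al (Qf c m) + c * be (Qf c m) := by
  rw [Qf, if_neg (by omega), show (2 * m + 1) / 2 = m by omega]

lemma Qf_one (c : P2) : Qf c 1 = c := by
  have := Qf_odd c 0
  rw [Qf_zero] at this
  rw [show (1 : ℕ) = 2 * 0 + 1 by norm_num, this]
  simp [al, be, AB]

lemma aeval_InK (b : ℕ) (Q : P2) : InK b (aeval (He b) Q) := by
  induction Q using Polynomial.induction_on with
  | C a =>
    rw [aeval_C]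
    have : a = 0 ∨ a = 1 := by
      revert a; decide
    rcases this with rfl | rfl
    · rw [map_zero]; exact InK.zero b
    · rw [map_one]; exact InK.one b
  | add p q hp hq => rw [map_add]; exact hp.add hq
  | monomial n a h =>
    rw [pow_succ, ← mul_assoc, map_mul, aeval_X]
    exact h.mul (He_InK b)

lemma low_pow_spec (j : ℕ) : ∀ q b : ℕ,
    low b (of (2 ^ (q * 2 ^ b)) ^ (2 ^ j)) = aeval (He b) (Qf (cj j) q) := by
  intro q
  induction q using Nat.strong_induction_on with
  | _ q ih =>
    intro b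
    rcases Nat.eq_zero_or_pos q with rfl | hq
    · rw [Qf_zero, zero_mul, pow_zero, of_one, one_pow, map_one, low_of_InK (InK.one b)]
    · obtain ⟨m, hm⟩ : ∃ m, q = 2 * m ∨ q = 2 * m + 1 := ⟨q / 2, by omega⟩
      rcases hm with hm | hm
      · have hm0 : 0 < m := by omega
        have e1 : q * 2 ^ b = m * 2 ^ (b + 1) := by rw [hm, pow_succ]; ring
        rw [e1, ← low_low (Nat.le_succ b), ih m (by omega) (b + 1), He_succ, split_spec, low_add,
          mul_comm (aeval (He b) (al (Qf (cj j) m))), low_Fe_mul le_rfl (aeval_InK b _), zero_add,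
          low_of_InK (aeval_InK b _), hm, Qf_even _ hm0]
      · have e1 : of (2 ^ (q * 2 ^ b)) = Fe b * of (2 ^ (m * 2 ^ (b + 1))) := by
          rw [mul_comm (Fe b), of_pow_mul (Fe_InK b) (Dvd.intro_left m rfl), hm]
          apply val_inj
          change 2 ^ ((2 * m + 1) * 2 ^ b) = 2 ^ (m * 2 ^ (b + 1)) * 2 ^ (2 ^ b)
          rw [← pow_add]
          congr 1
          ring
        have hK : InK (b + 1) (Fe b + aeval (He b) (cj j)) :=
          (Fe_InK b).add ((aeval_InK b _).mono (Nat.le_succ b))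
        set α := aeval (He b) (al (Qf (cj j) m)) with hα
        set β := aeval (He b) (be (Qf (cj j) m)) with hβ
        set c := aeval (He b) (cj j) with hc
        have hαK : InK b α := aeval_InK b _
        have hβK : InK b β := aeval_InK b _
        have hcK : InK b c := aeval_InK b _
        rw [e1, mul_pow, T_Fe, ← low_low (Nat.le_succ b), low_mul hK, ih m (by omega) (b + 1),
          He_succ, split_spec, ← hα, ← hβ]
        have e2 : (Fe b + c) * (α * Fe b + β) = Fe b * (α + β + c * α) + (He b * α + c * β) := by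
          linear_combination α * Fe_sq b
        rw [e2, low_add, low_Fe_mul le_rfl ((hαK.add hβK).add (hcK.mul hαK)), zero_add,
          low_of_InK (((He_InK b).mul hαK).add (hcK.mul hβK)), hm, Qf_odd, map_add, map_mul,
          map_mul, aeval_X, ← hα, ← hβ, ← hc]

/-! ### Nondegeneracy -/

lemma pow_surj (b j : ℕ) (y : NF) (hy : InK b y) : ∃ x, InK b x ∧ x ^ (2 ^ j) = y := by
  induction j generalizing y with
  | zero => exact ⟨y, hy, by rw [pow_zero, pow_one]⟩
  | succ j ih =>
    obtain ⟨n, hn, hny⟩ := sq_surj nimMul_isNimProduct b (val y) hy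
    obtain ⟨x, hx, hxn⟩ := ih (of n) hn
    refine ⟨x, hx, ?_⟩
    rw [pow_succ, pow_mul, hxn, pow_two]
    exact val_inj hny

lemma low_zero_of_bits (j e : ℕ) (z : NF)
    (hz : ∀ t < e, low 0 (z * of (2 ^ t) ^ (2 ^ j)) = 0) :
    ∀ y : ℕ, y < 2 ^ e → low 0 (z * of y ^ (2 ^ j)) = 0 := by
  induction e with
  | zero =>
    intro y hy
    have : y = 0 := by simpa using hy
    subst this
    rw [of_zero, zero_pow (by positivity), mul_zero]
    rfl
  | succ e ih =>
    intro y hy
    have ih' := ih (fun t ht => hz t (by omega))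
    by_cases hlt : y < 2 ^ e
    · exact ih' y hlt
    · have h1 : y / 2 ^ e = 1 := by
        rw [pow_succ] at hy
        apply Nat.div_eq_of_lt_le <;> omega
      have h2 := split e y
      rw [h1, mul_one] at h2
      rw [h2, of_xor, add_pow_char_pow, mul_add, low_add, hz e (by omega),
        ih' _ (Nat.mod_lt _ (by positivity)), add_zero]

lemma pair_inj (j b : ℕ) {z z' : NF} (hz : InK b z) (hz' : InK b z')
    (h : ∀ t < 2 ^ b, low 0 (z * of (2 ^ t) ^ (2 ^ j)) = low 0 (z' * of (2 ^ t) ^ (2 ^ j))) :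
    z = z' := by
  by_contra hne
  have hK := hz.add hz'
  have hne' : z + z' ≠ 0 := by
    intro h0
    apply hne
    have h2 := two_eq_zero
    linear_combination h0 - z' * h2
  obtain ⟨y, hy, hodd⟩ := exists_odd nimMul_isNimProduct b (val (z + z')) hK hne'
  obtain ⟨x, hx, hxy⟩ := pow_surj b j (of y) hy
  have h1 := low_zero_of_bits j (2 ^ b) (z + z') (by
    intro t ht
    rw [add_mul, low_add, h t ht, add_self]) (val x) hx
  rw [of_val, hxy] at h1
  have h2 : nimMul (val (z + z')) y % 2 ^ (2 ^ 0) = 0 := h1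
  norm_num at h2
  omega

/-! ### The main statement -/

lemma Qf_three_deg (j : ℕ) (hj : 1 ≤ j) : 2 ^ j ≤ (Qf (cj j) 3).natDegree := by
  have e3 : Qf (cj j) 3 = X * al (cj j) + cj j * be (cj j) := by
    have := Qf_odd (cj j) 1
    rw [Qf_one] at this
    exact this
  rcases Nat.lt_or_ge j 2 with h2 | h2
  · have hj1 : j = 1 := by omega
    subst hj1
    have hc : cj 1 = X := by simp [cj]
    rw [e3, hc]
    have ha : al (X : P2) = X := by
      simp [al, AB, Finset.sum_range_succ]
    have hb : be (X : P2) = 0 := by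
      simp [be, AB, Finset.sum_range_succ]
    rw [ha, hb, mul_zero, add_zero, ← pow_two, natDegree_X_pow]
    norm_num
  · obtain ⟨k, rfl⟩ : ∃ k, j = k + 2 := ⟨j - 2, by omega⟩
    have hd : (cj (k + 2)).natDegree = 2 * 2 ^ k := by
      rw [cj_deg (k + 1), pow_succ]; ring
    have hpk : 0 < 2 ^ k := by positivity
    have hbe := be_deg_ge hpk hd
    have hal := al_deg_le (cj (k + 2))
    have hc0 : cj (k + 2) ≠ 0 := by
      intro h
      rw [h, natDegree_zero] at hd
      omega
    have hb0 : be (cj (k + 2)) ≠ 0 := by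
      intro h
      rw [h, natDegree_zero] at hbe
      omega
    have h1 : (cj (k + 2) * be (cj (k + 2))).natDegree =
        (cj (k + 2)).natDegree + (be (cj (k + 2))).natDegree := natDegree_mul hc0 hb0
    have h2 : (X * al (cj (k + 2))).natDegree ≤ 1 + (al (cj (k + 2))).natDegree := by
      refine natDegree_mul_le.trans ?_
      rw [natDegree_X]
    rw [e3, natDegree_add_eq_right_of_natDegree_lt, h1, pow_add]
    · omega
    · omega

/-- The last bits of the nim powers `(2^i)^(2^j)`, `j ≥ 1`, are not eventually periodic. -/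
theorem not_periodic (j : ℕ) (hj : 1 ≤ j) : ¬ ∃ K P : ℕ, 0 < P ∧ ∀ i, K ≤ i →
    low 0 (of (2 ^ (i + P)) ^ (2 ^ j)) = low 0 (of (2 ^ i) ^ (2 ^ j)) := by
  rintro ⟨K, P, hP, hper⟩
  have hperm : ∀ m i, K ≤ i →
      low 0 (of (2 ^ (i + P * m)) ^ (2 ^ j)) = low 0 (of (2 ^ i) ^ (2 ^ j)) := by
    intro m
    induction m with
    | zero => intro i _; rw [mul_zero, add_zero]
    | succ m ih =>
      intro i hi
      rw [show i + P * (m + 1) = (i + P * m) + P by ring, hper _ (by omega), ih i hi]
  have step1 : ∀ q b, 1 ≤ q → K ≤ 2 ^ b →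
      aeval (He b) (Qf (cj j) (q + P)) = aeval (He b) (Qf (cj j) q) := by
    intro q b hq hb
    apply pair_inj j b (aeval_InK b _) (aeval_InK b _)
    intro t ht
    have key : ∀ q, low 0 (aeval (He b) (Qf (cj j) q) * of (2 ^ t) ^ (2 ^ j)) =
        low 0 (of (2 ^ (q * 2 ^ b + t)) ^ (2 ^ j)) := by
      intro q
      have hT : InK b (of (2 ^ t)) := Nat.pow_lt_pow_right (by norm_num) ht
      rw [← low_pow_spec, mul_comm, ← low_mul (hT.pow _), low_low (Nat.zero_le b), ← mul_pow,
        mul_comm, of_pow_mul hT (Dvd.intro_left q rfl), val_of, pow_add]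
    rw [key, key, show (q + P) * 2 ^ b + t = (q * 2 ^ b + t) + P * 2 ^ b by ring]
    apply hperm
    have : 2 ^ b ≤ q * 2 ^ b := Nat.le_mul_of_pos_left _ (by omega)
    omega
  have step2 : ∀ q, 1 ≤ q → Qf (cj j) (q + P) = Qf (cj j) q := by
    intro q hq
    rw [← sub_eq_zero]
    by_contra hne
    have hmap : (Qf (cj j) (q + P) - Qf (cj j) q).map (algebraMap (ZMod 2) NF) ≠ 0 := by
      intro h
      exact hne ((Polynomial.map_eq_zero_iff (algebraMap (ZMod 2) NF).injective).1 h)
    apply hmap
    apply Polynomial.eq_zero_of_infinite_isRoot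
    refine Set.Infinite.mono (s := Set.range (fun b : ℕ => He (K + b))) ?_ ?_
    · rintro _ ⟨b, rfl⟩
      have hKb : K ≤ 2 ^ (K + b) := by
        have h1 : K + b < 2 ^ (K + b) := Nat.lt_two_pow_self
        omega
      have h2 := step1 q (K + b) hq hKb
      change Polynomial.eval _ _ = 0
      rw [Polynomial.eval_map_algebraMap, map_sub, h2, sub_self]
    · apply Set.infinite_range_of_injective
      intro b b' hbb
      have h1 : 2 ^ (2 ^ (K + b)) / 2 = 2 ^ (2 ^ (K + b')) / 2 := hbb
      have h2 := half_two (K + b)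
      have h3 := half_two (K + b')
      have h4 : 2 ^ (2 ^ (K + b)) = 2 ^ (2 ^ (K + b')) := by omega
      have h5 := Nat.pow_right_injective (le_refl 2) h4
      have h6 := Nat.pow_right_injective (le_refl 2) h5
      omega
  -- a common bound for the degrees
  have step3 : ∀ q, 1 ≤ q →
      (Qf (cj j) q).natDegree ≤ ∑ q' ∈ range (P + 1), (Qf (cj j) q').natDegree := by
    intro q
    induction q using Nat.strong_induction_on with
    | _ q ih =>
      intro hq
      rcases Nat.lt_or_ge P q with h | h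
      · obtain ⟨q', rfl⟩ : ∃ q', q = q' + P := ⟨q - P, by omega⟩
        rw [step2 q' (by omega)]
        exact ih q' (by omega) (by omega)
      · exact Finset.single_le_sum (f := fun q' => (Qf (cj j) q').natDegree)
          (fun _ _ => Nat.zero_le _) (Finset.mem_range.2 (by omega))
  -- a polynomial of maximal degree
  obtain ⟨d, ⟨q, hq, hd⟩, hmax⟩ : ∃ d, (∃ q, 1 ≤ q ∧ (Qf (cj j) q).natDegree = d) ∧
      ∀ q', 1 ≤ q' → (Qf (cj j) q').natDegree ≤ d := by
    classical
    have hex : ∃ B, ∀ q', 1 ≤ q' → (Qf (cj j) q').natDegree ≤ B := ⟨_, step3⟩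
    have h1 := Nat.find_spec hex
    refine ⟨Nat.find hex, ?_, h1⟩
    by_contra hcon
    push Not at hcon
    rcases Nat.eq_zero_or_pos (Nat.find hex) with h0 | hpos
    · have h2 := h1 1 le_rfl
      exact hcon 1 le_rfl (by omega)
    · apply Nat.find_min hex (m := Nat.find hex - 1) (by omega)
      intro q' hq'
      have h2 := h1 q' hq'
      have h3 := hcon q' hq'
      omega
  have hd3 := hmax 3 (by norm_num)
  have h3 := Qf_three_deg j hj
  have h2j : 2 ≤ 2 ^ j := by
    calc 2 = 2 ^ 1 := by norm_num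
      _ ≤ 2 ^ j := Nat.pow_le_pow_right (by norm_num) hj
  have heven := hmax (2 * q) (by omega)
  have hoddq := hmax (2 * q + 1) (by omega)
  rw [Qf_even _ (by omega)] at heven
  rw [Qf_odd] at hoddq
  obtain ⟨e, he⟩ : ∃ e, d = 2 * e ∨ d = 2 * e + 1 := ⟨d / 2, by omega⟩
  rcases he with he | he
  · have := be_deg_ge (Q := Qf (cj j) q) (e := e) (by omega) (by omega)
    omega
  · have h4 := al_deg_ge (Q := Qf (cj j) q) (e := e) (by omega)
    have hal0 : al (Qf (cj j) q) ≠ 0 := by
      intro h
      rw [h, natDegree_zero] at h4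
      omega
    have h5 : (X * al (Qf (cj j) q)).natDegree = (al (Qf (cj j) q)).natDegree + 1 :=
      natDegree_X_mul hal0
    have h6 : X * al (Qf (cj j) q) = (X * al (Qf (cj j) q) + cj j * be (Qf (cj j) q)) -
        cj j * be (Qf (cj j) q) := by ring
    have h7 : (X * al (Qf (cj j) q)).natDegree ≤
        max (X * al (Qf (cj j) q) + cj j * be (Qf (cj j) q)).natDegree
          (cj j * be (Qf (cj j) q)).natDegree := by
      conv_lhs => rw [h6]
      exact natDegree_sub_le _ _
    have h8 : (cj j * be (Qf (cj j) q)).natDegree ≤ (cj j).natDegree + d :=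
      natDegree_mul_le.trans (by omega)
    obtain ⟨k, rfl⟩ : ∃ k, j = k + 1 := ⟨j - 1, by omega⟩
    rw [cj_deg k] at h8
    rw [pow_succ] at h3
    omega

end Pool.Agent.Y765.Nim
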