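import Mathlib
import Pool.Agent.Y765.Nim.Frob

/-!
A nim polynomial with 2-regular values is affine.
-/

set_option autoImplicit false

namespace Pool.Agent.Y765.Nim

open Polynomial Finset Pool.Agent.Results.MP_68925f_co.NimSquares

/-! ### The finite fields -/

/-- The finite field with `2^(2^v)` elements. -/
def K (v : ℕ) : Subring NF where
  carrier := {x | InK v x}
  mul_mem' := fun ha hb => InK.mul ha hb
  one_mem' := InK.one v
  add_mem' := fun ha hb => InK.add ha hb
  zero_mem' := InK.zero v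
  neg_mem' := fun h => h

/-- The elements of the finite field as natural numbers. -/
def equivK (v : ℕ) : K v ≃ Fin (2 ^ (2 ^ v)) where
  toFun x := ⟨val x.1, x.2⟩
  invFun n := ⟨of n, n.2⟩
  left_inv _ := rfl
  right_inv _ := rfl

noncomputable instance (v : ℕ) : Fintype (K v) := Fintype.ofEquiv _ (equivK v).symm

lemma card_K (v : ℕ) : Fintype.card (K v) = 2 ^ (2 ^ v) := by
  rw [Fintype.card_congr (equivK v), Fintype.card_fin]

noncomputable instance (v : ℕ) : Field (K v) := by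
  classical
  exact Fintype.fieldOfDomain (K v)

lemma K_two (v : ℕ) : (2 : K v) = 0 := by
  apply Subtype.ext
  exact two_eq_zero

lemma psum_lt {v e : ℕ} (he : e < 2 ^ (2 ^ v) - 1) : ∑ x : K v, x ^ e = 0 := by
  apply FiniteField.sum_pow_lt_card_sub_one
  rw [card_K]
  exact he

lemma psum_eq (v : ℕ) : ∑ x : K v, x ^ (2 ^ (2 ^ v) - 1) = 1 := by
  classical
  have h1 : ∀ x : K v, x ^ (2 ^ (2 ^ v) - 1) = if x = 0 then 0 else 1 := by
    intro x
    split_ifs with h
    · rw [h, zero_pow]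
      have : 2 ≤ 2 ^ (2 ^ v) := by
        calc 2 = 2 ^ 1 := by norm_num
          _ ≤ 2 ^ (2 ^ v) := Nat.pow_le_pow_right (by norm_num) (Nat.one_le_two_pow)
      omega
    · rw [← card_K]
      exact FiniteField.pow_card_sub_one_eq_one x h
  have h2 : ∀ x : K v, x ^ (2 ^ (2 ^ v) - 1) = 1 - (if x = 0 then 1 else 0) := by
    intro x
    rw [h1]
    split_ifs <;> simp
  rw [Finset.sum_congr rfl (fun x _ => h2 x), Finset.sum_sub_distrib, Finset.sum_ite_eq']
  simp only [Finset.sum_const, Finset.card_univ, Finset.mem_univ, if_true]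
  rw [nsmul_one, FiniteField.cast_card_eq_zero]
  linear_combination (-1 : K v) * K_two v

lemma psum (v d a i : ℕ) (ha : a ≤ d) (hi : i ≤ d) (hd : d < 2 ^ (2 ^ v) - 1) :
    ∑ x : K v, (x : NF) ^ (2 ^ (2 ^ v) - 1 - a + i) = if i = a then 1 else 0 := by
  have hcast : ∀ e, ∑ x : K v, (x : NF) ^ e = ((∑ x : K v, x ^ e : K v) : NF) := by
    intro e
    push_cast
    rfl
  rw [hcast]
  split_ifs with h
  · rw [h, Nat.sub_add_cancel (by omega), psum_eq]
    rfl
  · rcases Nat.lt_or_ge i a with hlt | hge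
    · rw [psum_lt (by omega)]
      rfl
    · obtain ⟨t, ht⟩ : ∃ t, i = a + (t + 1) := ⟨i - a - 1, by omega⟩
      have e : 2 ^ (2 ^ v) - 1 - a + i = 2 ^ (2 ^ v) + t := by omega
      have e2 : ∀ x : K v, x ^ (2 ^ (2 ^ v) + t) = x ^ (t + 1) := by
        intro x
        rw [pow_add, pow_succ']
        congr 1
        have := FiniteField.pow_card x
        rwa [card_K] at this
      rw [e, Finset.sum_congr rfl (fun x _ => e2 x), psum_lt (by omega)]
      rfl

/-- A coefficient is a weighted sum of values on a finite field. -/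
lemma extract (v d a : ℕ) (g : Polynomial NF) (hg : g.natDegree ≤ d) (ha : a ≤ d)
    (hd : d < 2 ^ (2 ^ v) - 1) :
    ∑ y : K v, (y : NF) ^ (2 ^ (2 ^ v) - 1 - a) * g.eval (y : NF) = g.coeff a := by
  have h1 : ∀ y : K v, (y : NF) ^ (2 ^ (2 ^ v) - 1 - a) * g.eval (y : NF) =
      ∑ i ∈ range (d + 1), g.coeff i * (y : NF) ^ (2 ^ (2 ^ v) - 1 - a + i) := by
    intro y
    rw [eval_eq_sum_range' (Nat.lt_succ_of_le hg), Finset.mul_sum]
    apply Finset.sum_congr rfl
    intro i _
    rw [pow_add]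
    ring
  rw [Finset.sum_congr rfl (fun y _ => h1 y), Finset.sum_comm]
  have h2 : ∀ i ∈ range (d + 1), ∑ y : K v, g.coeff i * (y : NF) ^ (2 ^ (2 ^ v) - 1 - a + i) =
      if i = a then g.coeff i else 0 := by
    intro i hi
    rw [Finset.mem_range] at hi
    rw [← Finset.mul_sum, psum v d a i ha (by omega) hd]
    split_ifs <;> simp
  rw [Finset.sum_congr rfl h2, Finset.sum_ite_eq']
  rw [if_pos (Finset.mem_range.2 (by omega))]

lemma extract_two (v d a m : ℕ) (f : Polynomial NF) (hf : f.natDegree ≤ d) (ha : a ≤ d)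
    (hm : m ≤ d) (hd : d < 2 ^ (2 ^ v) - 1) (E : NF) :
    ∑ r : K v, (r : NF) ^ (2 ^ (2 ^ v) - 1 - m) *
      ∑ y : K v, (y : NF) ^ (2 ^ (2 ^ v) - 1 - a) * f.eval (E * (y : NF) + (r : NF)) =
    (Nat.cast (R := NF) ((m + a).choose a)) * f.coeff (m + a) * E ^ a := by
  have h1 : ∀ r : K v, ∑ y : K v, (y : NF) ^ (2 ^ (2 ^ v) - 1 - a) *
      f.eval (E * (y : NF) + (r : NF)) = (hasseDeriv a f).eval (r : NF) * E ^ a := by
    intro r
    have h2 := extract v d a ((taylor (r : NF) f).comp (C E * X)) (by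
      refine natDegree_comp_le.trans ?_
      rw [natDegree_taylor]
      have h3 : (C E * X : Polynomial NF).natDegree ≤ 1 :=
        (natDegree_C_mul_le _ _).trans natDegree_X_le
      calc f.natDegree * (C E * X : Polynomial NF).natDegree ≤ f.natDegree * 1 :=
            Nat.mul_le_mul_left _ h3
        _ ≤ d := by omega) ha hd
    rw [comp_C_mul_X_coeff, taylor_coeff] at h2
    rw [← h2]
    apply Finset.sum_congr rfl
    intro y _
    rw [eval_comp, taylor_eval]
    simp
  rw [Finset.sum_congr rfl (fun r _ => by rw [h1 r])]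
  have h3 := extract v d m (hasseDeriv a f) ((natDegree_hasseDeriv_le _ _).trans (by omega)) hm hd
  rw [hasseDeriv_coeff] at h3
  rw [← h3, Finset.sum_mul]
  apply Finset.sum_congr rfl
  intro r _
  ring

/-! ### 2-regular sequences modulo an integer -/

lemma reg_periodic (s : ℕ → ℤ) (hs : TwoRegular s) (M R : ℕ) (hM : 0 < M) :
    ∃ k p : ℕ, 0 < p ∧ ∀ l e, k ≤ e → ∀ r < R, ∀ n,
      (M : ℤ) ∣ s (2 ^ (e + p * l) * n + r) - s (2 ^ e * n + r) := by
  have : NeZero M := ⟨by omega⟩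
  obtain ⟨n, g, hg⟩ := Submodule.fg_iff_exists_fin_generating_family.1 hs
  have hmem : ∀ (e : ℕ) (r : Fin R), ∃ c : Fin n → ℤ,
      ∑ i, c i • g i = fun m => s (2 ^ (R + e) * m + r) := by
    intro e r
    rw [← Submodule.mem_span_range_iff_exists_fun ℤ, hg]
    apply Submodule.subset_span
    refine ⟨R + e, r, ?_, rfl⟩
    have h1 : R < 2 ^ R := Nat.lt_two_pow_self
    have h2 : 2 ^ R ≤ 2 ^ (R + e) := Nat.pow_le_pow_right (by norm_num) (by omega)
    have h3 := r.2
    omega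
  choose c hc using hmem
  obtain ⟨k, k', hne, hkk⟩ := Finite.exists_ne_map_eq_of_infinite
    (fun k => (fun r i => ((c k r i : ℤ) : ZMod M) : Fin R → Fin n → ZMod M))
  wlog hlt : k < k' generalizing k k' with H
  · exact H k' k hne.symm hkk.symm (by omega)
  have hdiv : ∀ r i, (M : ℤ) ∣ c k' r i - c k r i := by
    intro r i
    have := congrFun (congrFun hkk r) i
    have h2 : ((c k' r i - c k r i : ℤ) : ZMod M) = 0 := by
      push_cast
      rw [sub_eq_zero]
      exact this.symm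
    exact (ZMod.intCast_zmod_eq_zero_iff_dvd _ M).1 h2
  have one : ∀ e, R + k ≤ e → ∀ r < R, ∀ n,
      (M : ℤ) ∣ s (2 ^ (e + (k' - k)) * n + r) - s (2 ^ e * n + r) := by
    intro e he r hr m
    have e1 := congrFun (hc k' ⟨r, hr⟩) (2 ^ (e - (R + k)) * m)
    have e2 := congrFun (hc k ⟨r, hr⟩) (2 ^ (e - (R + k)) * m)
    rw [← mul_assoc, ← pow_add] at e1 e2
    have e3 : R + k' + (e - (R + k)) = e + (k' - k) := by omega
    have e4 : R + k + (e - (R + k)) = e := by omega
    rw [e3] at e1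
    rw [e4] at e2
    simp only at e1 e2
    rw [← e1, ← e2]
    simp only [Finset.sum_apply, Pi.smul_apply, smul_eq_mul]
    rw [← Finset.sum_sub_distrib]
    apply Finset.dvd_sum
    intro i _
    rw [← sub_mul]
    exact Dvd.dvd.mul_right (hdiv _ i) _
  refine ⟨R + k, k' - k, by omega, fun l => ?_⟩
  induction l with
  | zero =>
    intro e _ r _ m
    rw [mul_zero, add_zero, sub_self]
    exact dvd_zero _
  | succ l ih =>
    intro e he r hr m
    have h1 := ih e he r hr m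
    have h2 := one (e + (k' - k) * l) (by omega) r hr m
    have h3 := dvd_add h2 h1
    rw [sub_add_sub_cancel] at h3
    rw [show e + (k' - k) * (l + 1) = e + (k' - k) * l + (k' - k) by ring]
    exact h3

/-- The lowest digit as an additive map. -/
def lowHom (v : ℕ) : NF →+ NF where
  toFun := low v
  map_zero' := low_of_InK (InK.zero v)
  map_add' := low_add v

lemma low_sum {ι : Type*} (v : ℕ) (s : Finset ι) (g : ι → NF) :
    low v (∑ i ∈ s, g i) = ∑ i ∈ s, low v (g i) := map_sum (lowHom v) g s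

lemma choose_odd (j : ℕ) : ∀ n, 2 ^ j ≤ n → n < 2 ^ (j + 1) → n.choose (2 ^ j) % 2 = 1 := by
  induction j with
  | zero =>
    intro n h1 h2
    norm_num at h1 h2
    have : n = 1 := by omega
    subst this
    norm_num
  | succ j ih =>
    intro n h1 h2
    have : Fact (Nat.Prime 2) := ⟨Nat.prime_two⟩
    have h3 : n.choose (2 ^ (j + 1)) ≡
        (n % 2).choose (2 ^ (j + 1) % 2) * (n / 2).choose (2 ^ (j + 1) / 2) [MOD 2] :=
      Choose.choose_modEq_choose_mod_mul_choose_div_nat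
    have h4 : 2 ^ (j + 1) % 2 = 0 := by rw [pow_succ]; omega
    have h5 : 2 ^ (j + 1) / 2 = 2 ^ j := by rw [pow_succ]; omega
    rw [h4, h5, Nat.choose_zero_right, one_mul] at h3
    have h6 := ih (n / 2) (by rw [pow_succ] at h1; omega) (by rw [pow_succ] at h2; omega)
    unfold Nat.ModEq at h3
    omega

/-- If the values of a nim polynomial form a 2-regular sequence, then the polynomial has
degree at most one. -/
theorem coeff_eq_zero (f : Polynomial NF)
    (hf : TwoRegular (fun n => (val (f.eval (of n)) : ℤ))) : ∀ i, 2 ≤ i → f.coeff i = 0 := by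
  intro i0 hi0
  by_contra hne
  set d := f.natDegree with hd
  have hid : i0 ≤ d := le_natDegree_of_ne_zero hne
  set j := Nat.log 2 i0 with hj
  have hj1 : 1 ≤ j := by
    rw [hj]
    exact (Nat.le_log_iff_pow_le (by norm_num) (by omega)).2 (by omega)
  have hja : 2 ^ j ≤ i0 := Nat.pow_log_le_self 2 (by omega)
  have hjb : i0 < 2 ^ (j + 1) := Nat.lt_pow_succ_log_self (by norm_num) i0
  obtain ⟨v1, hv1⟩ := exists_InK (f.coeff i0)
  set v := max v1 (d + 2) with hv
  have hγ : InK v (f.coeff i0) := hv1.mono (le_max_left _ _)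
  have hdv : d < 2 ^ (2 ^ v) - 1 := by
    have h1 : d + 2 < 2 ^ (2 ^ (d + 2)) := lt_pow_pow _
    have h2 : 2 ^ (2 ^ (d + 2)) ≤ 2 ^ (2 ^ v) := pow_mono (le_max_right _ _)
    omega
  obtain ⟨k, p, hp, hper⟩ := reg_periodic _ hf (2 ^ (2 ^ v)) (2 ^ (2 ^ v)) (by positivity)
  -- values on the shifted field
  have key1 : ∀ q, k + 1 ≤ q → ∀ y r : K v,
      low v (f.eval (of (2 ^ ((q + p) * 2 ^ v)) * (y : NF) + (r : NF))) =
      low v (f.eval (of (2 ^ (q * 2 ^ v)) * (y : NF) + (r : NF))) := by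
    intro q hq y r
    have hconv : ∀ q, 1 ≤ q → of (2 ^ (q * 2 ^ v)) * (y : NF) + (r : NF) =
        of (2 ^ (q * 2 ^ v) * val (y : NF) + val (r : NF)) := by
      intro q hq
      rw [of_pow_mul y.2 (Dvd.intro_left q rfl), ← join _ _ _ (lt_of_lt_of_le r.2
        (Nat.pow_le_pow_right (by norm_num) (Nat.le_mul_of_pos_left _ (by omega)))), of_xor,
        of_val]
    have hv0 : 0 < 2 ^ v := by positivity
    have h1 := hper (2 ^ v) (q * 2 ^ v) (by nlinarith) (val (r : NF)) r.2 (val (y : NF))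
    rw [show q * 2 ^ v + p * 2 ^ v = (q + p) * 2 ^ v by ring] at h1
    rw [hconv _ (by omega), hconv _ (by omega)]
    apply val_inj
    change val _ % 2 ^ (2 ^ v) = val _ % 2 ^ (2 ^ v)
    have h2 : ((val (f.eval (of (2 ^ ((q + p) * 2 ^ v) * val (y : NF) + val (r : NF)))) : ℤ)) ≡
        ((val (f.eval (of (2 ^ (q * 2 ^ v) * val (y : NF) + val (r : NF)))) : ℤ))
        [ZMOD ((2 ^ (2 ^ v) : ℕ) : ℤ)] := (Int.modEq_iff_dvd.2 h1).symm
    exact (Int.natCast_modEq_iff.1 h2)
  have key2 : ∀ q, k + 1 ≤ q →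
      low v (of (2 ^ ((q + p) * 2 ^ v)) ^ (2 ^ j)) = low v (of (2 ^ (q * 2 ^ v)) ^ (2 ^ j)) := by
    intro q hq
    have h1 : ∀ E : NF, low v (∑ r : K v, (r : NF) ^ (2 ^ (2 ^ v) - 1 - (i0 - 2 ^ j)) *
        ∑ y : K v, (y : NF) ^ (2 ^ (2 ^ v) - 1 - 2 ^ j) * f.eval (E * (y : NF) + (r : NF))) =
        ∑ r : K v, (r : NF) ^ (2 ^ (2 ^ v) - 1 - (i0 - 2 ^ j)) *
        ∑ y : K v, (y : NF) ^ (2 ^ (2 ^ v) - 1 - 2 ^ j) *
          low v (f.eval (E * (y : NF) + (r : NF))) := by
      intro E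
      rw [low_sum]
      apply Finset.sum_congr rfl
      intro r _
      rw [low_mul (InK.pow r.2 _), low_sum]
      congr 1
      apply Finset.sum_congr rfl
      intro y _
      rw [low_mul (InK.pow y.2 _)]
    have h2 : ∀ E : NF, low v (∑ r : K v, (r : NF) ^ (2 ^ (2 ^ v) - 1 - (i0 - 2 ^ j)) *
        ∑ y : K v, (y : NF) ^ (2 ^ (2 ^ v) - 1 - 2 ^ j) * f.eval (E * (y : NF) + (r : NF))) =
        f.coeff i0 * low v (E ^ (2 ^ j)) := by
      intro E
      rw [extract_two v d (2 ^ j) (i0 - 2 ^ j) f le_rfl (by omega) (by omega) hdv,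
        Nat.sub_add_cancel hja]
      have h3 : Nat.cast (R := NF) (i0.choose (2 ^ j)) = 1 := by
        have h4 := Nat.div_add_mod (i0.choose (2 ^ j)) 2
        rw [choose_odd j i0 hja hjb] at h4
        rw [← h4]
        push_cast
        rw [two_eq_zero]
        ring
      rw [h3, one_mul, low_mul hγ]
    have h5 := h2 (of (2 ^ ((q + p) * 2 ^ v)))
    have h6 := h2 (of (2 ^ (q * 2 ^ v)))
    rw [h1] at h5 h6
    have h7 : f.coeff i0 * low v (of (2 ^ ((q + p) * 2 ^ v)) ^ (2 ^ j)) =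
        f.coeff i0 * low v (of (2 ^ (q * 2 ^ v)) ^ (2 ^ j)) := by
      rw [← h5, ← h6]
      apply Finset.sum_congr rfl
      intro r _
      congr 1
      apply Finset.sum_congr rfl
      intro y _
      rw [key1 q hq]
    exact mul_left_cancel₀ hne h7
  apply not_periodic j hj1
  refine ⟨(k + 1) * 2 ^ v, p * 2 ^ v, by positivity, ?_⟩
  intro i hi
  have hv0 : 0 < 2 ^ v := by positivity
  have hq : k + 1 ≤ i / 2 ^ v := (Nat.le_div_iff_mul_le hv0).2 hi
  have hdm := Nat.div_add_mod i (2 ^ v)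
  have hT : InK v (of (2 ^ (i % 2 ^ v))) :=
    Nat.pow_lt_pow_right (by norm_num) (Nat.mod_lt _ hv0)
  have h8 : ∀ q, low 0 (of (2 ^ (q * 2 ^ v + i % 2 ^ v)) ^ (2 ^ j)) =
      low 0 (of (2 ^ (i % 2 ^ v)) ^ (2 ^ j) * low v (of (2 ^ (q * 2 ^ v)) ^ (2 ^ j))) := by
    intro q
    rw [← low_mul (hT.pow _), low_low (Nat.zero_le v), ← mul_pow,
      mul_comm (of (2 ^ (i % 2 ^ v))), of_pow_mul hT (Dvd.intro_left q rfl), val_of, pow_add]
  rw [show i + p * 2 ^ v = (i / 2 ^ v + p) * 2 ^ v + i % 2 ^ v by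
      nlinarith, h8, key2 _ hq, ← h8]
  congr 3
  congr 1
  rw [mul_comm]
  omega

end Pool.Agent.Y765.Nim
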