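import Mathlib
import Pool.Agent.Y765.Nim.Extract

/-!
2-regular arrays: lines and diagonals, affine nim functions, and the classification of
2-regular nim polynomials in one and two variables.
-/

set_option autoImplicit false

namespace Pool.Agent.Y765.Nim

open Polynomial Finset Pool.Agent.Results.MP_68925f_co.NimSquares

/-- The 2-kernel of an array of integers. -/
def kernelTwoArray (t : ℕ → ℕ → ℤ) : Set (ℕ → ℕ → ℤ) :=
  {u | ∃ e r r' : ℕ, r < 2 ^ e ∧ r' < 2 ^ e ∧
    u = fun m n => t (2 ^ e * m + r) (2 ^ e * n + r')}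

/-- An array is 2-regular if its 2-kernel generates a finitely generated `ℤ`-module. -/
def TwoRegularArray (t : ℕ → ℕ → ℤ) : Prop := (Submodule.span ℤ (kernelTwoArray t)).FG

lemma fg_of_le {M : Type*} [AddCommGroup M] {N N' : Submodule ℤ M} (h : N' ≤ N) (hN : N.FG) :
    N'.FG := by
  have := isNoetherian_of_fg_of_noetherian N hN
  have h1 : (N'.comap N.subtype).FG := IsNoetherian.noetherian _
  have h2 := h1.map N.subtype
  rwa [Submodule.map_comap_subtype, inf_eq_right.2 h] at h2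

lemma regular_diag {t : ℕ → ℕ → ℤ} (ht : TwoRegularArray t) : TwoRegular (fun n => t n n) := by
  let L : (ℕ → ℕ → ℤ) →ₗ[ℤ] (ℕ → ℤ) :=
    { toFun := fun u n => u n n
      map_add' := fun _ _ => rfl
      map_smul' := fun _ _ => rfl }
  have h1 : (Submodule.map L (Submodule.span ℤ (kernelTwoArray t))).FG := ht.map L
  refine fg_of_le ?_ h1
  rw [Submodule.span_le]
  rintro u ⟨e, r, hr, rfl⟩
  exact ⟨_, Submodule.subset_span ⟨e, r, r, hr, hr, rfl⟩, rfl⟩

lemma regular_row {t : ℕ → ℕ → ℤ} (ht : TwoRegularArray t) (b : ℕ) :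
    TwoRegular (fun m => t m b) := by
  let L : ℕ → (ℕ → ℕ → ℤ) →ₗ[ℤ] (ℕ → ℤ) := fun x =>
    { toFun := fun u m => u m x
      map_add' := fun _ _ => rfl
      map_smul' := fun _ _ => rfl }
  have h1 : (⨆ x : Fin (b + 1),
      Submodule.map (L x) (Submodule.span ℤ (kernelTwoArray t))).FG :=
    Submodule.fg_iSup _ (fun x => ht.map (L x))
  refine fg_of_le ?_ h1
  rw [Submodule.span_le]
  rintro u ⟨e, r, hr, rfl⟩
  have hx : b / 2 ^ e < b + 1 := Nat.lt_succ_of_le (Nat.div_le_self _ _)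
  refine Submodule.mem_iSup_of_mem ⟨b / 2 ^ e, hx⟩ ?_
  refine ⟨_, Submodule.subset_span ⟨e, r, b % 2 ^ e, hr, Nat.mod_lt _ (by positivity), rfl⟩, ?_⟩
  funext m
  change t (2 ^ e * m + r) (2 ^ e * (b / 2 ^ e) + b % 2 ^ e) = t (2 ^ e * m + r) b
  rw [Nat.div_add_mod]

lemma regular_swap {t : ℕ → ℕ → ℤ} (ht : TwoRegularArray t) :
    TwoRegularArray (fun m n => t n m) := by
  let L : (ℕ → ℕ → ℤ) →ₗ[ℤ] (ℕ → ℕ → ℤ) :=
    { toFun := fun u m n => u n m
      map_add' := fun _ _ => rfl
      map_smul' := fun _ _ => rfl }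
  have h1 : (Submodule.map L (Submodule.span ℤ (kernelTwoArray t))).FG := ht.map L
  refine fg_of_le ?_ h1
  rw [Submodule.span_le]
  rintro u ⟨e, r, r', hr, hr', rfl⟩
  exact ⟨_, Submodule.subset_span ⟨e, r', r, hr', hr, rfl⟩, rfl⟩

/-! ### Affine functions -/

lemma digit_mul {v : ℕ} {c : NF} (hc : InK v c) : ∀ N x : ℕ, x < 2 ^ (N * 2 ^ v) →
    val (c * of (2 ^ (2 ^ v) * x)) = 2 ^ (2 ^ v) * val (c * of x) ∧
      val (c * of x) < 2 ^ (N * 2 ^ v) := by
  intro N
  induction N with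
  | zero =>
    intro x hx
    have : x = 0 := by simpa using hx
    subst this
    rw [mul_zero, of_zero, mul_zero]
    simp
  | succ N ih =>
    intro x hx
    have hx1 : x / 2 ^ (N * 2 ^ v) < 2 ^ (2 ^ v) := by
      apply Nat.div_lt_of_lt_mul
      rw [← pow_add, show N * 2 ^ v + 2 ^ v = (N + 1) * 2 ^ v by ring]
      exact hx
    have hlo : x % 2 ^ (N * 2 ^ v) < 2 ^ (N * 2 ^ v) := Nat.mod_lt _ (by positivity)
    obtain ⟨i1, i2⟩ := ih _ hlo
    set hi := x / 2 ^ (N * 2 ^ v) with hhi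
    set lo := x % 2 ^ (N * 2 ^ v) with hlo'
    have hK : InK v (of hi) := hx1
    have e0 : ∀ q, val (c * of (2 ^ (q * 2 ^ v) * hi)) = 2 ^ (q * 2 ^ v) * val (c * of hi) := by
      intro q
      have h1 : of (2 ^ (q * 2 ^ v) * hi) = of (2 ^ (q * 2 ^ v)) * of hi :=
        (of_pow_mul hK (Dvd.intro_left q rfl)).symm
      rw [h1, mul_left_comm, of_pow_mul (hc.mul hK) (Dvd.intro_left q rfl), val_of]
    have ex : x = 2 ^ (N * 2 ^ v) * hi ^^^ lo := split _ _
    have eM : 2 ^ (2 ^ v) * x = 2 ^ ((N + 1) * 2 ^ v) * hi ^^^ 2 ^ (2 ^ v) * lo := by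
      rw [ex, mul_xor_pow, ← mul_assoc, ← pow_add, show 2 ^ v + N * 2 ^ v = (N + 1) * 2 ^ v by ring]
    have h2 : val (c * of x) = 2 ^ (N * 2 ^ v) * val (c * of hi) ^^^ val (c * of lo) := by
      conv_lhs => rw [ex]
      rw [of_xor, mul_add, val_add, e0]
    constructor
    · rw [eM, of_xor, mul_add, val_add, e0, i1, h2, mul_xor_pow, ← mul_assoc, ← pow_add,
        show 2 ^ v + N * 2 ^ v = (N + 1) * 2 ^ v by ring]
    · rw [h2, join _ _ _ i2]
      have h3 : val (c * of hi) < 2 ^ (2 ^ v) := hc.mul hK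
      calc 2 ^ (N * 2 ^ v) * val (c * of hi) + val (c * of lo)
          < 2 ^ (N * 2 ^ v) * val (c * of hi) + 2 ^ (N * 2 ^ v) := by omega
        _ = 2 ^ (N * 2 ^ v) * (val (c * of hi) + 1) := by ring
        _ ≤ 2 ^ (N * 2 ^ v) * 2 ^ (2 ^ v) := Nat.mul_le_mul_left _ h3
        _ = 2 ^ ((N + 1) * 2 ^ v) := by rw [← pow_add]; congr 1; ring

lemma digit_mul' {v : ℕ} {c : NF} (hc : InK v c) (q x : ℕ) :
    val (c * of (2 ^ (q * 2 ^ v) * x)) = 2 ^ (q * 2 ^ v) * val (c * of x) := by
  induction q with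
  | zero => simp
  | succ q ih =>
    have h1 : 2 ^ ((q + 1) * 2 ^ v) * x = 2 ^ (2 ^ v) * (2 ^ (q * 2 ^ v) * x) := by
      rw [← mul_assoc, ← pow_add]; congr 2; ring
    have h2 : 2 ^ (q * 2 ^ v) * x < 2 ^ ((2 ^ (q * 2 ^ v) * x) * 2 ^ v) := by
      refine lt_of_lt_of_le Nat.lt_two_pow_self (Nat.pow_le_pow_right (by norm_num) ?_)
      exact Nat.le_mul_of_pos_right _ (by positivity)
    rw [h1, (digit_mul hc _ _ h2).1, ih, ← mul_assoc, ← pow_add]
    congr 2
    ring

/-- Affine nim functions of two variables are 2-regular. -/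
theorem affine_regular (c0 c1 c2 : NF) :
    TwoRegularArray (fun m n => (val (c0 + c1 * of m + c2 * of n) : ℤ)) := by
  obtain ⟨v0, hv0⟩ := exists_InK c0
  obtain ⟨v1, hv1⟩ := exists_InK c1
  obtain ⟨v2, hv2⟩ := exists_InK c2
  set v := max v0 (max v1 v2) with hv
  have h0 : InK v c0 := hv0.mono (le_max_left _ _)
  have h1 : InK v c1 := hv1.mono ((le_max_left _ _).trans (le_max_right _ _))
  have h2 : InK v c2 := hv2.mono ((le_max_right _ _).trans (le_max_right _ _))
  set w : ℕ → ℕ → ℕ := fun m n => val (c1 * of m + c2 * of n) with hw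
  set t : ℕ → ℕ → ℤ := fun m n => (val (c0 + c1 * of m + c2 * of n) : ℤ) with ht
  have htw : ∀ m n, t m n = ((val c0 ^^^ w m n : ℕ) : ℤ) := by
    intro m n
    simp only [ht, hw, add_assoc, val_add]
  -- the finite generating set
  let G : (Fin (2 ^ v) × Fin (2 ^ (2 ^ v)) × Fin (2 ^ (2 ^ v))) × Fin 3 → (ℕ → ℕ → ℤ) :=
    fun z m n => match z.2 with
      | 0 => 1
      | 1 => t (2 ^ (z.1.1 : ℕ) * m + z.1.2.1) (2 ^ (z.1.1 : ℕ) * n + z.1.2.2)
      | 2 => (w (2 ^ (z.1.1 : ℕ) * m + z.1.2.1) (2 ^ (z.1.1 : ℕ) * n + z.1.2.2) : ℤ)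
  have hG : (Submodule.span ℤ (Set.range G)).FG := Submodule.fg_span (Set.finite_range G)
  refine fg_of_le ?_ hG
  rw [Submodule.span_le]
  rintro u ⟨e, r, r', hr, hr', rfl⟩
  have hvpos : 0 < 2 ^ v := by positivity
  set q := e / 2 ^ v with hq
  set s := e % 2 ^ v with hs
  have hsv : s < 2 ^ v := Nat.mod_lt _ hvpos
  have hes : e = q * 2 ^ v + s := by rw [mul_comm]; exact (Nat.div_add_mod e (2 ^ v)).symm
  have hsplit : ∀ r, r < 2 ^ e → r / 2 ^ (q * 2 ^ v) < 2 ^ s := by
    intro r hr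
    apply Nat.div_lt_of_lt_mul
    rw [← pow_add, ← hes]
    exact hr
  have hs2 : 2 ^ s < 2 ^ (2 ^ v) := Nat.pow_lt_pow_right (by norm_num) hsv
  have r1 := hsplit r hr
  have r1' := hsplit r' hr'
  -- digits of `w`
  have hwsplit : ∀ a b x y, x < 2 ^ (q * 2 ^ v) → y < 2 ^ (q * 2 ^ v) →
      w (2 ^ (q * 2 ^ v) * a + x) (2 ^ (q * 2 ^ v) * b + y) =
        2 ^ (q * 2 ^ v) * w a b ^^^ w x y ∧ w x y < 2 ^ (q * 2 ^ v) := by
    intro a b x y hx hy
    constructor
    · simp only [hw]
      rw [← join _ _ _ hx, ← join _ _ _ hy, of_xor, of_xor, mul_add, mul_add, val_add, val_add,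
        val_add, digit_mul' h1, digit_mul' h2, val_add, val_add, mul_xor_pow]
      ac_rfl
    · simp only [hw]
      rw [val_add]
      exact Nat.xor_lt_two_pow (digit_mul h1 _ _ hx).2 (digit_mul h2 _ _ hy).2
  have hre : ∀ r m, 2 ^ e * m + r = 2 ^ (q * 2 ^ v) * (2 ^ s * m + r / 2 ^ (q * 2 ^ v)) +
      r % 2 ^ (q * 2 ^ v) := by
    intro r m
    have h3 := Nat.div_add_mod r (2 ^ (q * 2 ^ v))
    have h4 : 2 ^ e = 2 ^ (q * 2 ^ v) * 2 ^ s := by rw [hes, pow_add]
    rw [h4]
    conv_lhs => rw [← h3]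
    ring
  have hmod : ∀ r : ℕ, r % 2 ^ (q * 2 ^ v) < 2 ^ (q * 2 ^ v) :=
    fun r => Nat.mod_lt _ (by positivity)
  have hGm : ∀ z, G z ∈ Submodule.span ℤ (Set.range G) :=
    fun z => Submodule.subset_span (Set.mem_range_self z)
  have hpp : 0 < 2 ^ (2 ^ v) := by positivity
  have hone := hGm ((⟨0, hvpos⟩, ⟨0, hpp⟩, ⟨0, hpp⟩), 0)
  rcases Nat.eq_zero_or_pos q with hq0 | hqpos
  · apply Submodule.subset_span
    have hes' : e = s := by rw [hes, hq0, zero_mul, zero_add]
    have hr2 : r < 2 ^ (2 ^ v) := by rw [hes'] at hr; omega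
    have hr2' : r' < 2 ^ (2 ^ v) := by rw [hes'] at hr'; omega
    refine ⟨((⟨s, hsv⟩, ⟨r, hr2⟩, ⟨r', hr2'⟩), 1), ?_⟩
    funext m n
    change t (2 ^ s * m + r) (2 ^ s * n + r') = t (2 ^ e * m + r) (2 ^ e * n + r')
    rw [hes']
  · have hGw := hGm ((⟨s, hsv⟩, ⟨r / 2 ^ (q * 2 ^ v), by omega⟩,
        ⟨r' / 2 ^ (q * 2 ^ v), by omega⟩), 2)
    have hsum := Submodule.add_mem _ (Submodule.smul_mem _ ((2 ^ (q * 2 ^ v) : ℕ) : ℤ) hGw)
      (Submodule.smul_mem _ ((val c0 ^^^ w (r % 2 ^ (q * 2 ^ v)) (r' % 2 ^ (q * 2 ^ v)) : ℕ) : ℤ)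
        hone)
    refine Eq.subst (motive := fun z => z ∈ Submodule.span ℤ (Set.range G)) ?_ hsum
    funext m n
    change ((2 ^ (q * 2 ^ v) : ℕ) : ℤ) * (w (2 ^ s * m + r / 2 ^ (q * 2 ^ v))
      (2 ^ s * n + r' / 2 ^ (q * 2 ^ v)) : ℤ) +
      ((val c0 ^^^ w (r % 2 ^ (q * 2 ^ v)) (r' % 2 ^ (q * 2 ^ v)) : ℕ) : ℤ) * (1 : ℤ) =
      t (2 ^ e * m + r) (2 ^ e * n + r')
    rw [htw, hre r m, hre r' n]
    obtain ⟨w1, w2⟩ := hwsplit (2 ^ s * m + r / 2 ^ (q * 2 ^ v))
      (2 ^ s * n + r' / 2 ^ (q * 2 ^ v)) _ _ (hmod r) (hmod r')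
    have hc0 : val c0 < 2 ^ (q * 2 ^ v) :=
      lt_of_lt_of_le h0 (Nat.pow_le_pow_right (by norm_num) (Nat.le_mul_of_pos_left _ hqpos))
    have e5 : ∀ A W : ℕ, W < 2 ^ (q * 2 ^ v) → val c0 ^^^ (2 ^ (q * 2 ^ v) * A ^^^ W) =
        2 ^ (q * 2 ^ v) * A + (val c0 ^^^ W) := by
      intro A W hW
      rw [← join _ _ _ (Nat.xor_lt_two_pow hc0 hW)]
      ac_rfl
    rw [w1, e5 _ _ w2, mul_one, Nat.cast_add, Nat.cast_mul]

/-! ### Nim polynomials -/

/-- The polynomial with given coefficients. -/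
noncomputable def Pol (c : ℕ → ℕ) (d : ℕ) : Polynomial NF :=
  ∑ i ∈ range d, C (of (c i)) * X ^ i

lemma Pol_coeff (c : ℕ → ℕ) (d i : ℕ) : (Pol c d).coeff i = if i < d then of (c i) else 0 := by
  unfold Pol
  rw [finsetSum_coeff]
  simp only [coeff_C_mul, coeff_X_pow, mul_ite, mul_one, mul_zero]
  rw [Finset.sum_ite_eq]
  simp only [Finset.mem_range]

/-- Nim powers. -/
def npow (mul : ℕ → ℕ → ℕ) (x : ℕ) : ℕ → ℕ
  | 0 => 1
  | k + 1 => mul (npow mul x k) x

/-- The value at `n` of the nim polynomial with coefficients `c 0, ..., c (d - 1)`. -/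
def npoly (mul : ℕ → ℕ → ℕ) (c : ℕ → ℕ) : ℕ → ℕ → ℕ
  | 0, _ => 0
  | d + 1, n => npoly mul c d n ^^^ mul (c d) (npow mul n d)

lemma npow_eq (x k : ℕ) : of (npow nimMul x k) = of x ^ k := by
  induction k with
  | zero => rw [pow_zero]; rfl
  | succ k ih => rw [pow_succ, ← ih]; rfl

lemma npoly_eq (c : ℕ → ℕ) (d n : ℕ) :
    of (npoly nimMul c d n) = (Pol c d).eval (of n) := by
  induction d with
  | zero => simp [npoly, Pol, of_zero]
  | succ d ih =>
    have e : Pol c (d + 1) = Pol c d + C (of (c d)) * X ^ d := Finset.sum_range_succ _ _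
    rw [e, eval_add, ← ih, eval_mul, eval_C, eval_pow, eval_X, ← npow_eq]
    rfl

lemma zero_of_eval_zero (c : ℕ → ℕ) (d : ℕ) (h : ∀ a : NF, (Pol c d).eval a = 0) :
    ∀ i, i < d → c i = 0 := by
  have hinf : Infinite NF := inferInstanceAs (Infinite ℕ)
  have h0 : Pol c d = 0 := Polynomial.funext (fun a => by rw [h a, eval_zero])
  intro i hi
  have h1 := Pol_coeff c d i
  rw [h0, coeff_zero, if_pos hi] at h1
  exact of_inj h1.symm

/-- Classification in one variable. -/
theorem one_variable (c : ℕ → ℕ) (d : ℕ) :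
    TwoRegular (fun n => (npoly nimMul c d n : ℤ)) ↔ ∀ i, 2 ≤ i → i < d → c i = 0 := by
  constructor
  · intro h i hi hid
    have h1 : TwoRegular (fun n => (val ((Pol c d).eval (of n)) : ℤ)) := by
      simp only [← npoly_eq, val_of]
      exact h
    have h2 := coeff_eq_zero _ h1 i hi
    rw [Pol_coeff, if_pos hid] at h2
    exact of_inj h2
  · intro h
    have h1 := regular_row (affine_regular ((Pol c d).coeff 0) ((Pol c d).coeff 1) 0) 0
    have h2 : ∀ n, npoly nimMul c d n =
        val ((Pol c d).coeff 0 + (Pol c d).coeff 1 * of n + 0 * of 0) := by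
      intro n
      have h3 : (Pol c d).natDegree < 2 := by
        have : (Pol c d).natDegree ≤ 1 := by
          rw [natDegree_le_iff_coeff_eq_zero]
          intro i hi
          rw [Pol_coeff]
          split_ifs with hid
          · rw [h i (by omega) hid]; rfl
          · rfl
        omega
      have h4 := npoly_eq c d n
      rw [eval_eq_sum_range' h3, Finset.sum_range_succ, Finset.sum_range_succ,
        Finset.sum_range_zero, zero_add, pow_zero, mul_one, pow_one] at h4
      rw [zero_mul, add_zero, ← h4, val_of]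
    have h5 : (fun n => (npoly nimMul c d n : ℤ)) = fun m =>
        (val ((Pol c d).coeff 0 + (Pol c d).coeff 1 * of m + 0 * of 0) : ℤ) := by
      funext n
      rw [h2]
    rw [h5]
    exact h1

/-- The value at `(m, n)` of the nim polynomial with coefficients `c i j`, `i, j < d`. -/
def npolyTwo (mul : ℕ → ℕ → ℕ) (c : ℕ → ℕ → ℕ) (d m n : ℕ) : ℕ :=
  npoly mul (fun i => npoly mul (c i) d n) d m

lemma npolyTwo_eq (c : ℕ → ℕ → ℕ) (d m n : ℕ) : of (npolyTwo nimMul c d m n) =
    ∑ i ∈ range d, ∑ j ∈ range d, of (c i j) * of m ^ i * of n ^ j := by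
  unfold npolyTwo
  rw [npoly_eq, Pol, eval_finsetSum]
  apply Finset.sum_congr rfl
  intro i _
  rw [eval_mul, eval_C, eval_pow, eval_X, npoly_eq, Pol, eval_finsetSum, Finset.sum_mul]
  apply Finset.sum_congr rfl
  intro j _
  rw [eval_mul, eval_C, eval_pow, eval_X]
  ring

lemma npolyTwo_swap (c : ℕ → ℕ → ℕ) (d m n : ℕ) :
    npolyTwo nimMul c d m n = npolyTwo nimMul (fun i j => c j i) d n m := by
  apply of_inj
  rw [npolyTwo_eq, npolyTwo_eq, Finset.sum_comm]
  apply Finset.sum_congr rfl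
  intro i _
  apply Finset.sum_congr rfl
  intro j _
  ring

lemma first_big (c : ℕ → ℕ → ℕ) (d : ℕ)
    (h : TwoRegularArray (fun m n => (npolyTwo nimMul c d m n : ℤ))) :
    ∀ i j, 2 ≤ i → i < d → j < d → c i j = 0 := by
  intro i j hi hid hjd
  apply zero_of_eval_zero (c i) d ?_ j hjd
  intro a
  have h1 := regular_row h (val a)
  have h2 := (one_variable (fun i => npoly nimMul (c i) d (val a)) d).1 h1 i hi hid
  rw [← of_val a, ← npoly_eq, h2]
  rfl

/-- Classification in two variables. -/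
theorem two_variables (c : ℕ → ℕ → ℕ) (d : ℕ) :
    TwoRegularArray (fun m n => (npolyTwo nimMul c d m n : ℤ)) ↔
      ∀ i j, 2 ≤ i + j → i < d → j < d → c i j = 0 := by
  constructor
  · intro h
    have hA := first_big c d h
    have hB : ∀ i j, 2 ≤ j → i < d → j < d → c i j = 0 := by
      intro i j hj hid hjd
      have h1 := regular_swap h
      simp only [npolyTwo_swap c] at h1
      exact first_big (fun i j => c j i) d h1 j i hj hjd hid
    intro i j hij hid hjd
    rcases Nat.lt_or_ge i 2 with hi | hi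
    · rcases Nat.lt_or_ge j 2 with hj | hj
      · have hi1 : i = 1 := by omega
        have hj1 : j = 1 := by omega
        subst hi1 hj1
        -- the diagonal
        have h1 := regular_diag h
        set g : Polynomial NF := ∑ i ∈ range d, X ^ i * Pol (c i) d with hg
        have h2 : ∀ n, val (g.eval (of n)) = npolyTwo nimMul c d n n := by
          intro n
          have h3 := npolyTwo_eq c d n n
          apply val_inj
          change g.eval (of n) = of (npolyTwo nimMul c d n n)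
          rw [h3, hg, eval_finsetSum]
          apply Finset.sum_congr rfl
          intro i _
          rw [eval_mul, eval_pow, eval_X, Pol, eval_finsetSum, Finset.mul_sum]
          apply Finset.sum_congr rfl
          intro j _
          rw [eval_mul, eval_C, eval_pow, eval_X]
          ring
        have h4 := coeff_eq_zero g (by simpa only [h2] using h1) 2 le_rfl
        rw [hg, finsetSum_coeff, Finset.sum_eq_single 1] at h4
        · rw [coeff_X_pow_mul', if_pos (by norm_num), Pol_coeff, if_pos (by omega)] at h4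
          exact of_inj h4
        · intro i hi hne
          rw [Finset.mem_range] at hi
          rw [coeff_X_pow_mul']
          split_ifs with hi2
          · rw [Pol_coeff]
            split_ifs with hd2
            · have : i = 0 ∨ i = 2 := by omega
              rcases this with rfl | rfl
              · rw [hB 0 (2 - 0) (by norm_num) hi hd2]; rfl
              · rw [hA 2 (2 - 2) le_rfl hi hd2]; rfl
            · rfl
          · rfl
        · intro hn
          exact absurd (Finset.mem_range.2 hid) hn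
      · exact hB i j hj hid hjd
    · exact hA i j hi hid hjd
  · intro h
    have h1 := affine_regular (if 0 < d then of (c 0 0) else 0) (if 1 < d then of (c 1 0) else 0)
      (if 1 < d then of (c 0 1) else 0)
    convert h1 using 1
    funext m n
    congr 1
    apply of_inj
    rw [npolyTwo_eq, of_val]
    have hz : ∀ i j, 2 ≤ i + j → i < d → j < d → of (c i j) * of m ^ i * of n ^ j = 0 := by
      intro i j hij hi hj
      rw [h i j hij hi hj, of_zero, zero_mul, zero_mul]
    rcases Nat.lt_or_ge d 2 with hd | hd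
    · have hd' : d = 0 ∨ d = 1 := by omega
      rcases hd' with rfl | rfl
      · simp
      · simp
    · obtain ⟨k, rfl⟩ : ∃ k, d = k + 2 := ⟨d - 2, by omega⟩
      have inner : ∀ i < k + 2, ∑ j ∈ range (k + 2), of (c i j) * of m ^ i * of n ^ j =
          if i = 0 then of (c 0 0) + of (c 0 1) * of n else
            if i = 1 then of (c 1 0) * of m else 0 := by
        intro i hi
        rw [Finset.sum_range_succ', Finset.sum_range_succ']
        rw [Finset.sum_eq_zero (fun j hj => by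
          rw [Finset.mem_range] at hj
          exact hz i (j + 1 + 1) (by omega) hi (by omega)), zero_add]
        split_ifs with h1 h2
        · subst h1
          simp only [zero_add, pow_zero, pow_one, mul_one]
          rw [add_comm]
        · subst h2
          rw [hz 1 (0 + 1) (by omega) (by omega) (by omega)]
          simp
        · rw [hz i (0 + 1) (by omega) hi (by omega), hz i 0 (by omega) hi (by omega), add_zero]
      rw [Finset.sum_congr rfl (fun i hi => inner i (Finset.mem_range.1 hi)),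
        Finset.sum_range_succ', Finset.sum_range_succ']
      rw [Finset.sum_eq_zero (fun i _ => by simp), zero_add]
      have hk1 : 0 < k + 2 := by omega
      have hk2 : 1 < k + 2 := by omega
      simp only [hk1, hk2, if_true, zero_add, one_ne_zero, if_false]
      ring

end Pool.Agent.Y765.Nim
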